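import Pool.Agent.PHB.Final

/-!
# The graph of a family in `VNP` is not in the polynomial hierarchy over the complex numbers,
relative to a polynomial oracle

`MP_50b9ba_lc`, Q1. Oracles, circuits and the classes `VP`, `VNP` are as in `RelativizationBarrier`
(`Pool/Agent/VRJ/Defs.lean`); formulas relative to an oracle are defined in
`Pool/Agent/PHB/FDefs.lean`. The polynomials `PHB.fam Φ n` are multilinear polynomials in `n` variables
and form a family in `VNP` relative to `Φ`. A set which contains the graph of `PHB.fam Φ n` and is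
defined by a formula with few quantified variables, few queries on each path, few parameters and a
bounded number of quantifier alternations is Zariski dense: it is not contained in a hypersurface.
-/

namespace Pool.Agent.Results.MP_50b9ba_lc.HierarchyBarrier

open MvPolynomial VRJ Pool.Agent.PHB

theorem result : ∃ Φ : Orc, (∀ L i, degreeOf i (Φ L) ≤ 2) ∧ InVNP Φ (PHB.fam Φ) ∧
    (∀ n, (PHB.fam Φ n).totalDegree ≤ n ∧ ∀ v ∈ (PHB.fam Φ n).vars, v < n) ∧
    ∀ (n r s p : ℕ) (θ : Fm (p + (n + 1))) (u : Fin p → ℂ), 1 ≤ s → n ≤ s → p ≤ s → θ.cost ≤ s →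
      θ.alt ≤ r → (4 * s) ^ (2 ^ (r + 5)) < 2 ^ n →
      (∀ x : Fin n → ℂ, Sat Φ θ (Fin.append u (Fin.snoc (α := fun _ => ℂ) x
        (eval (fun v => if hv : v < n then x ⟨v, hv⟩ else 0) (PHB.fam Φ n))))) →
      ∀ F : MvPolynomial (Fin (n + 1)) ℂ, F ≠ 0 →
        ∃ w : Fin (n + 1) → ℂ, eval w F ≠ 0 ∧ Sat Φ θ (Fin.append u w) :=
  Pool.Agent.PHB.final

end Pool.Agent.Results.MP_50b9ba_lc.HierarchyBarrier
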