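import Pool.Agent.VPH.HypMain

set_option autoImplicit false

/-!
# MP_50b9ba_lc: tests in the polynomial hierarchy over `ℂ` are as hard as evaluation

`g` is an irreducible polynomial of degree at most `d` in `N` complex variables, `φ` a prenex formula
over `ℂ` with `N` free variables, which defines the set `T = {u | φ.holds ℂ u}`. Suppose that `T` contains
the points of the hypersurface `g = 0` with `e ≠ 0`, for some polynomial `e` not divisible by `g`, and
that `T` is not Zariski dense. Then `g` is in the closure of the set of polynomials of degree at most `d`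
computed with at most `S` operations, `S` polynomial in `d`, `s` and exponential only in the number of blocks.

Definitions (`Pool/Agent/VPH/Defs.lean`): `Comp s f` (`L(f) ≤ s`), `Fml` (prenex formulas),
`Fml.holds` (truth), `Fml.rk` (number of blocks), `Fml.tot` (number of all variables), `Fml.Siz`
(complexity of the polynomials of the matrix), `Bd d S f` (closure).
-/

namespace Pool.Agent.Results.MP_50b9ba_lc.HierarchyTests

open MvPolynomial VPH

private theorem not_irreducible_zero (g : MvPolynomial (Fin 0) ℂ) : ¬ Irreducible g := by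
  intro h
  obtain ⟨c, rfl⟩ := C_surjective (Fin 0) g
  have h0 : c ≠ 0 := by
    rintro rfl
    exact h.ne_zero (by rw [C_0])
  exact h.not_isUnit ((isUnit_iff_ne_zero.2 h0).map C)

private theorem aev {N : ℕ} (u : Fin N → ℂ) (p : MvPolynomial (Fin N) ℂ) :
    aeval u p = eval u p := by
  rw [← coe_aeval_eq_eval]
  rfl

theorem result (N d s : ℕ) (g : MvPolynomial (Fin N) ℂ) (hg : Irreducible g)
    (hd : g.totalDegree ≤ d) (φ : Fml ℂ N) (hφ : φ.Siz s)
    (e : MvPolynomial (Fin N) ℂ) (he : ¬ g ∣ e)
    (hT : ∀ u : Fin N → ℂ, eval u g = 0 → eval u e ≠ 0 → φ.holds ℂ u)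
    (q : MvPolynomial (Fin N) ℂ) (hq : q ≠ 0)
    (hTq : ∀ u : Fin N → ℂ, φ.holds ℂ u → eval u q = 0) :
    Bd d (16 * (d + 1) ^ 6 * (s + 10) * (4 * (φ.tot + 1)) ^ (2 * (φ.rk + 1))) g := by
  cases N with
  | zero => exact absurd hg (not_irreducible_zero g)
  | succ n =>
    refine hyp_thm g hg hd φ hφ e he ?_ q hq ?_
    · intro u hu hue
      rw [aev] at hu hue
      exact hT u hu hue
    · intro u hu
      rw [aev]
      exact hTq u hu

end Pool.Agent.Results.MP_50b9ba_lc.HierarchyTests
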