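import Pool.Agent.IRG.Final

/-!
# Irreducible polynomials with a zero test in `NP` over the complex numbers, and the permanent

`MP_50b9ba_lc`, Q1. The polynomials `G n` are irreducible, their zeros are described by `n + 1` equations
with `n` additional unknowns (so the zero test is in `NP`), and every polynomial with the same zeros is
at least as hard to compute as the permanent, up to a factor `4`.

The definitions are in `Pool/Agent/IRG/Defs.lean`.
-/

namespace Pool.Agent.Results.MP_50b9ba_lc.IrreducibleOneTest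

open MvPolynomial Pool.Agent.IRG

theorem result : ∃ G : ∀ n : ℕ, MvPolynomial (Vr n) ℂ, ∀ n : ℕ, Irreducible (G n) ∧
    (∀ (x : Fin n → ℂ) (z : Fin n → Fin (n + 1) → ℂ) (y : ℂ), eval (pt x z y) (G n) = 0 ↔
      ∃ s : Fin n → ℂ, (∀ i, s i ^ 2 = x i) ∧
        y * ((∏ i, s i) * ∏ i, (z i 0 + ∑ j : Fin n, z i j.succ * s j)) = 1) ∧
    (∀ (k : ℕ) (f : MvPolynomial (Vr n) ℂ), Comp k f → (∀ w, eval w f = 0 ↔ eval w (G n) = 0) →
      Comp (4 * k + 1) (per n)) ∧
    ∀ (k l e : ℕ) (f h : MvPolynomial (Vr n) ℂ), 1 ≤ e → f = G n ^ e * h → Comp k f → Comp l h →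
      Comp (4 * k + 4 * l + 2) (per n * v0 h) :=
  Pool.Agent.IRG.final

end Pool.Agent.Results.MP_50b9ba_lc.IrreducibleOneTest
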