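import Pool.Agent.VRJ.Final2

/-!
# Relativization barrier for the problem whether Valiant's hypothesis implies `P ≠ NP` over the
complex numbers

`MP_50b9ba_lc`, Q1. Oracles are sequences of complex polynomials, `Φ L` has `L` variables; machines and
circuits may ask for the values of these polynomials and for their Taylor coefficients along curves.
Every oracle `A` is contained in an oracle `Φ` relative to which `P = NP`, although the classes `VP`
and `VNP` are different (with an exponential lower bound for a family in `VNP`). So Q1 has no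
relativizing proof. The hard polynomials `f n` have `n` variables and degree at most `n`, the equation
`y = f n (x)` can be tested in polynomial time relative to `Φ`, and the irreducible polynomials
`X n - f n` have nonzero multiples of polynomial complexity.

The definitions are in `Pool/Agent/VRJ/Defs.lean`.
-/

namespace Pool.Agent.Results.MP_50b9ba_lc.RelativizationBarrier

open MvPolynomial VRJ

theorem result (A : Orc) :
    ∃ Φ : Orc, (∀ L, Φ (3 * L) = rename (Fin.castLE (by omega)) (A L)) ∧
      (∀ B, InNP Φ B ↔ InP Φ B) ∧
      ∃ f : ℕ → MvPolynomial ℕ ℂ, InVNP Φ f ∧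
        (∀ n, (f n).totalDegree ≤ n ∧ ∀ v ∈ (f n).vars, v < n) ∧
        (∀ n s, s ^ 2 * (s + 1) < 2 ^ n → ¬ Comp Φ s (f n)) ∧ ¬ InVP Φ f ∧
        (∀ n, Irreducible (X n - f n)) ∧
        InP Φ {l | ∃ n, l.length = n + 1 ∧ eval (fun v => l.getD v 0) (X n - f n) = 0} ∧
        ∃ k, ∀ n, ∃ h : MvPolynomial ℕ ℂ, h ≠ 0 ∧ X n - f n ∣ h ∧ Comp Φ ((n + 2) ^ k) h :=
  VRJ.first A

end Pool.Agent.Results.MP_50b9ba_lc.RelativizationBarrier
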